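import Pool.Agent.PLG.Stmts

/-!
# Squad PLG (MP_1fc801_co), row MA1: the main theorem if there is no vertical vector
-/

set_option autoImplicit false

namespace Pool.Agent.PLG.H66

open Module Pool.Agent.PLG

namespace MA1

/-- the structure theorem with a larger constant -/
theorem struc_mono {d C C' : ℕ} (hC : C ≤ C') (h : Struc d C) : Struc d C' := by
  intro E _ _ f G Θ L j R h1 h2 h3 h4 h5 h6 h7 h8
  have hL : 1 ≤ L := by linarith
  have hp : L ^ C ≤ L ^ C' := pow_le_pow_right₀ hL hC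
  obtain ⟨z, hz, hn⟩ := h E f G Θ L j R h1 h2 h3 h4 (hp.trans h5) h6 h7 h8
  exact ⟨z, hz, hn.trans (mul_le_mul_of_nonneg_right hp (sq_nonneg _))⟩

/-- the line of slope `t` -/
theorem lz_eq (G : AddSubgroup ℂ) (t : ℝ) : lz G ⟨1, t⟩ = lp G t := by
  ext x
  rw [mem_lz, mem_lp]
  refine and_congr_right fun _ => ⟨?_, fun h => ⟨x.re, ?_⟩⟩
  · rintro ⟨r, rfl⟩
    simp [mul_comm]
  · apply Complex.ext
    · simp
    · simp [h, mul_comm]

theorem finrank_bs {E : Type} [NormedAddCommGroup E] (f : ℂ →+ E) (G : AddSubgroup ℂ) (r : ℝ)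
    {d : ℕ} (hd : Dsc f G) (hf : FiniteDimensional ℚ (sp G)) (h : finrank ℚ (sp G) ≤ d) :
    finrank ℚ (bs f G r) ≤ d := by
  have hle : bs f G r ≤ sp G := by
    refine Submodule.span_mono fun x hx => ?_
    exact ((mem_bl hd).1 hx).1
  exact (Submodule.finrank_mono hle).trans h

/-- a slope of a vector has at least three elements -/
theorem three_le {E : Type} [NormedAddCommGroup E] {f : ℂ →+ E} {G : AddSubgroup ℂ}
    (hd : Dsc f G) {u : ℂ} (hu : u ∈ bl f G 4) (h0 : u.re ≠ 0) :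
    3 ≤ cnt f (lp G (u.im / u.re)) 4 := by
  classical
  have hu' := (mem_bl hd).1 hu
  have h1 : u ∈ bl f (lp G (u.im / u.re)) 4 := by
    rw [mem_bl (hd.lp _)]
    exact ⟨mem_lp.2 ⟨hu'.1, by field_simp⟩, hu'.2⟩
  have h2 := neg_mem_bl (hd.lp _) h1
  have h3 : (0 : ℂ) ∈ bl f (lp G (u.im / u.re)) 4 := zero_mem_bl (hd.lp _) (by norm_num)
  have hne : u ≠ 0 := fun h => h0 (by rw [h]; rfl)
  have hnn : u ≠ -u := fun h => hne (self_eq_neg.1 h)
  have h4 : ({0, u, -u} : Finset ℂ) ⊆ bl f (lp G (u.im / u.re)) 4 := by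
    intro x hx
    simp only [Finset.mem_insert, Finset.mem_singleton] at hx
    rcases hx with rfl | rfl | rfl
    · exact h3
    · exact h1
    · exact h2
  have h5 : ({0, u, -u} : Finset ℂ).card = 3 := by
    rw [Finset.card_insert_of_notMem, Finset.card_pair hnn]
    simp only [Finset.mem_insert, Finset.mem_singleton, not_or]
    exact ⟨hne.symm, fun h => hne (neg_eq_zero.1 h.symm)⟩
  calc 3 = ({0, u, -u} : Finset ℂ).card := h5.symm
    _ ≤ _ := Finset.card_le_card h4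

theorem one_le_log {p : ℝ} (hp : 3 ≤ p) : 1 ≤ Real.log p := by
  rw [Real.le_log_iff_exp_le (by linarith)]
  have := Real.exp_one_lt_d9
  linarith

/-- the last estimate -/
theorem final (C : ℕ) (K₁ D n p X M : ℝ) (hD : 1 ≤ D) (hK : 1 ≤ K₁) (hp : 3 ≤ p) (hpn : p ≤ n)
    (hn : n ≤ D * p) (hX : 0 ≤ X) (hM : X ≤ K₁ * M)
    (h : n ≤ (16 * (1 + Real.log n)) ^ C * X ^ 2) :
    1 / ((16 * (2 + Real.log D)) ^ C * K₁) * Real.sqrt p ≤ Real.log p ^ C * M := by
  have hlp := one_le_log hp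
  have hlD : 0 ≤ Real.log D := Real.log_nonneg hD
  have hln : Real.log n ≤ Real.log D + Real.log p := by
    rw [← Real.log_mul (by linarith) (by linarith)]
    exact Real.log_le_log (by linarith) hn
  have hln1 : 1 ≤ Real.log n := hlp.trans (Real.log_le_log (by linarith) hpn)
  set Y := (16 * (1 + Real.log n)) ^ C with hY
  have hY1 : 1 ≤ Y := one_le_pow₀ (by linarith)
  have hYle : Y ≤ (16 * (2 + Real.log D)) ^ C * Real.log p ^ C := by
    rw [← mul_pow]
    refine pow_le_pow_left₀ (by linarith) ?_ C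
    nlinarith [mul_nonneg hlD (sub_nonneg.2 hlp)]
  have hs : Real.sqrt p ≤ Y * X := by
    refine Real.sqrt_le_sqrt (hpn.trans h) |>.trans ?_
    rw [Real.sqrt_le_left (by positivity), mul_pow]
    refine mul_le_mul_of_nonneg_right ?_ (sq_nonneg X)
    nlinarith
  have hM0 : 0 ≤ M := by
    by_contra hneg
    have : K₁ * M < 0 := mul_neg_of_pos_of_neg (by linarith) (not_le.1 hneg)
    linarith
  have hC0 : 0 < (16 * (2 + Real.log D)) ^ C := by positivity
  rw [div_mul_eq_mul_div, one_mul, div_le_iff₀ (by positivity)]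
  calc Real.sqrt p ≤ Y * X := hs
    _ ≤ ((16 * (2 + Real.log D)) ^ C * Real.log p ^ C) * (K₁ * M) :=
        mul_le_mul hYle hM hX (by positivity)
    _ = Real.log p ^ C * M * ((16 * (2 + Real.log D)) ^ C * K₁) := by ring

end MA1

/-- **MA1** -/
theorem ma1 (hcov : CovStmt) (hslc : SlcStmt) (hstr : StrStmt) (heng : EngStmt) (hprp : PrpStmt)
    (hcls : ClsStmt) (hpar : ParStmt) : Ma1Stmt := by
  classical
  intro d K
  obtain ⟨C₀, hC₀⟩ := hstr d
  set C := C₀ + 1 with hC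
  have hstruc : Struc d C := MA1.struc_mono (Nat.le_succ _) hC₀
  set K₁ := max K 1 with hK₁
  have hK1 : 1 ≤ K₁ := le_max_right _ _
  have h5d : (1 : ℝ) ≤ 5 ^ d := one_le_pow₀ (by norm_num)
  have h9d : (1 : ℝ) ≤ 9 ^ d := one_le_pow₀ (by norm_num)
  have h11d : (1 : ℝ) ≤ 11 ^ d := one_le_pow₀ (by norm_num)
  obtain ⟨B, hB1, hB⟩ := hcls (18 * 5 ^ d) C (by linarith) (by omega)
  set D : ℝ := 9 ^ d * K₁ with hD
  have hD1 : 1 ≤ D := one_le_mul_of_one_le_of_one_le h9d hK1
  refine ⟨min (1 / 3) (1 / (D * (B + 2))),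
    1 / ((16 * (2 + Real.log D)) ^ C * (11 ^ d * K₁)), C, by positivity, ?_, ?_⟩
  · have := Real.log_nonneg hD1
    positivity
  intro E _ _ f G P p₀ hd hfd hrk hvert hPne hP hcard hnd
  have hrk' : ∀ r : ℝ, finrank ℚ (bs f G r) ≤ d := fun r => MA1.finrank_bs f G r hd hfd hrk
  set p : ℝ := (P.card : ℝ) with hp
  have hp1 : 1 ≤ p := by
    have h1 : 1 ≤ P.card := Finset.card_pos.2 hPne
    exact Nat.one_le_cast.2 h1
  -- the balls
  have hPn1 : p ≤ cnt f G 1 := by
    have h1 : (P.image fun q => q - p₀) ⊆ bl f G 1 := by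
      intro x hx
      obtain ⟨q, hq, rfl⟩ := Finset.mem_image.1 hx
      exact hP q hq
    have h2 : (P.image fun q => q - p₀).card = P.card :=
      Finset.card_image_of_injective _ (sub_left_injective)
    have h3 := Finset.card_le_card h1
    rw [h2] at h3
    exact Nat.cast_le.2 h3
  have hn14 : (cnt f G 1 : ℝ) ≤ cnt f G 4 := by exact_mod_cast cnt_mono hd (by norm_num)
  set n : ℝ := (cnt f G 4 : ℝ) with hn
  have hpn : p ≤ n := hPn1.trans hn14
  have hn1 : 1 ≤ n := hp1.trans hpn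
  have hc1 : (cnt f G 1 : ℝ) ≤ K₁ * p :=
    hcard.trans (mul_le_mul_of_nonneg_right (le_max_left _ _) (by linarith))
  have hcov4 : n ≤ 9 ^ d * cnt f G 1 := by
    have := hcov E f G 4 1 d hd (by norm_num) (by norm_num) (hrk' 4)
    norm_num at this
    exact this
  have hcov8 : (cnt f G 8 : ℝ) ≤ 5 ^ d * n := by
    have := hcov E f G 8 4 d hd (by norm_num) (by norm_num) (hrk' 8)
    norm_num at this
    exact this
  have hcov5 : (cnt f G 5 : ℝ) ≤ 11 ^ d * cnt f G 1 := by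
    have := hcov E f G 5 1 d hd (by norm_num) (by norm_num) (hrk' 5)
    norm_num at this
    exact this
  have hnD : n ≤ D * p := by
    calc n ≤ 9 ^ d * cnt f G 1 := hcov4
      _ ≤ 9 ^ d * (K₁ * p) := mul_le_mul_of_nonneg_left hc1 (by linarith)
      _ = D * p := by rw [hD]; ring
  -- the number of distances is at least one
  have hnd1 : (1 : ℝ) ≤ nd P := by
    obtain ⟨q, hq⟩ := hPne
    have : 0 < nd P := by
      unfold nd
      exact Finset.card_pos.2 ⟨_, Finset.mem_image_of_mem _ (Finset.mk_mem_product hq hq)⟩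
    exact_mod_cast this
  have hp3 : 3 ≤ p := by
    have h1 : (nd P : ℝ) ≤ 1 / 3 * p :=
      hnd.trans (mul_le_mul_of_nonneg_right (min_le_left _ _) (by linarith))
    linarith
  -- energy
  set T := ((bl f G 4).filter (fun u => u ≠ 0)).image (fun u => u.im / u.re) with hT
  set S : ℝ := ∑ t ∈ T, (cnt f (lp G t) 4 : ℝ) ^ 2 with hS
  have hS0 : 0 ≤ S := Finset.sum_nonneg fun t _ => sq_nonneg _
  have hBn : B * n ≤ S := by
    have h1 := heng E f G P p₀ hd hP
    have h2 := hprp E f G hd hvert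
    have h3 : ((((bl f G 4 ×ˢ bl f G 4).filter
        (fun p => p.1.re * p.2.re + p.1.im * p.2.im = 0)).card : ℕ) : ℝ) ≤ 2 * n + S := by
      have h4 : ((((bl f G 4 ×ˢ bl f G 4).filter
        (fun p => p.1.re * p.2.re + p.1.im * p.2.im = 0)).card : ℕ) : ℝ) ≤
          ((2 * cnt f G 4 + ∑ t ∈ T, (cnt f (lp G t) 4) ^ 2 : ℕ) : ℝ) := by
        exact_mod_cast h2
      push_cast at h4
      exact h4
    have h5 : p ^ 2 ≤ nd P * (2 * n + S) :=
      h1.trans (mul_le_mul_of_nonneg_left h3 (Nat.cast_nonneg _))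
    have h6 : (nd P : ℝ) ≤ 1 / (D * (B + 2)) * p :=
      hnd.trans (mul_le_mul_of_nonneg_right (min_le_right _ _) (by linarith))
    have h7 : p ^ 2 ≤ 1 / (D * (B + 2)) * p * (2 * n + S) :=
      h5.trans (mul_le_mul_of_nonneg_right h6 (by linarith))
    have h8 : 0 < D * (B + 2) := mul_pos (by linarith) (by linarith)
    have h9 : p * (D * (B + 2)) ≤ 2 * n + S := by
      have h10 : p * (p * (D * (B + 2))) ≤ p * (2 * n + S) := by
        have h11 : 1 / (D * (B + 2)) * p * (2 * n + S) * (D * (B + 2)) = p * (2 * n + S) := by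
          field_simp
        calc p * (p * (D * (B + 2))) = p ^ 2 * (D * (B + 2)) := by ring
          _ ≤ 1 / (D * (B + 2)) * p * (2 * n + S) * (D * (B + 2)) :=
              mul_le_mul_of_nonneg_right h7 h8.le
          _ = _ := h11
      exact le_of_mul_le_mul_left h10 (by linarith)
    have h12 : n * (B + 2) ≤ p * (D * (B + 2)) := by
      calc n * (B + 2) ≤ D * p * (B + 2) := mul_le_mul_of_nonneg_right hnD (by linarith)
        _ = _ := by ring
    linarith
  -- the slopes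
  have hT3 : ∀ t ∈ T, 3 ≤ cnt f (lp G t) 4 := by
    intro t ht
    obtain ⟨u, hu, rfl⟩ := Finset.mem_image.1 ht
    obtain ⟨hu1, hu2⟩ := Finset.mem_filter.1 hu
    exact MA1.three_le hd hu1 fun h => hu2 (hvert u hu1 h)
  have hTn : ∀ t, (cnt f (lp G t) 4 : ℝ) ≤ n := fun t => Nat.cast_le.2 (cnt_sub hd lp_le)
  have hln : 0 ≤ Real.log n := Real.log_nonneg hn1
  -- the rich line
  have key : ∃ z : ℂ, z ≠ 0 ∧ n ≤ (16 * (1 + Real.log n)) ^ C * (cnt f (lz G z) 4 : ℝ) ^ 2 := by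
    by_cases hcase : ∃ t ∈ T, n < (cnt f (lp G t) 4 : ℝ) ^ 2
    · obtain ⟨t, -, ht⟩ := hcase
      refine ⟨⟨1, t⟩, fun h => ?_, ?_⟩
      · have := congrArg Complex.re h
        simp at this
      · rw [MA1.lz_eq]
        have h1 : (1 : ℝ) ≤ (16 * (1 + Real.log n)) ^ C := one_le_pow₀ (by linarith)
        nlinarith [sq_nonneg ((cnt f (lp G t) 4 : ℝ))]
    · have hcase' : ∀ t ∈ T, (cnt f (lp G t) 4 : ℝ) ^ 2 ≤ n := fun t ht =>
        not_lt.1 fun h => hcase ⟨t, ht, h⟩
      have hj : ∀ j : ℝ, 3 ≤ j →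
          ((T.filter (fun t => j ≤ (cnt f (lp G t) 4 : ℝ))).card : ℝ) * j ^ 2
            ≤ 18 * 5 ^ d * n := by
        intro j hj3
        set Θ := T.filter (fun t => j ≤ (cnt f (lp G t) 4 : ℝ)) with hΘ
        have hK0 : n ≤ 18 * 5 ^ d * n := by
          have : 1 ≤ 18 * (5 : ℝ) ^ d := by linarith
          nlinarith
        rcases Nat.lt_or_ge Θ.card 2 with h2 | h2
        · rcases Finset.eq_empty_or_nonempty Θ with h0 | ⟨t, ht⟩
          · rw [h0]
            simp only [Finset.card_empty, Nat.cast_zero, zero_mul]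
            linarith
          · have h3 : Θ.card = 1 := by
              have := Finset.card_pos.2 ⟨t, ht⟩
              omega
            obtain ⟨ht1, ht2⟩ := Finset.mem_filter.1 ht
            rw [h3, Nat.cast_one, one_mul]
            calc j ^ 2 ≤ (cnt f (lp G t) 4 : ℝ) ^ 2 := pow_le_pow_left₀ (by linarith) ht2 2
              _ ≤ n := hcase' t ht1
              _ ≤ _ := hK0
        · have h3 := hslc E f G Θ 4 j hd (by norm_num) hj3 fun t ht => (Finset.mem_filter.1 ht).2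
          have h4 : (2 : ℝ) * 4 = 8 := by norm_num
          rw [h4] at h3
          have h5 : (2 : ℝ) ≤ Θ.card := by exact_mod_cast h2
          have h6 : (Θ.card : ℝ) * j ^ 2 ≤ 2 * (((Θ.card : ℝ) - 1) * j ^ 2) := by
            nlinarith [sq_nonneg j]
          calc (Θ.card : ℝ) * j ^ 2 ≤ 2 * (((Θ.card : ℝ) - 1) * j ^ 2) := h6
            _ ≤ 2 * (9 * (5 ^ d * n)) := by linarith
            _ = _ := by ring
      obtain ⟨L, j, hL2, hLn, hLj, hLN⟩ := hB T (fun t => cnt f (lp G t) 4) n hn1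
        (fun t ht => ⟨hT3 t ht, hTn t⟩) hj hBn
      obtain ⟨z, hz, hzn⟩ := hstruc E f G (T.filter (fun t => j ≤ (cnt f (lp G t) 4 : ℝ))) L j 4
        hd hfd hrk hL2 hLj (by norm_num) (fun t ht => (Finset.mem_filter.1 ht).2) hLN
      refine ⟨z, hz, hzn.trans (mul_le_mul_of_nonneg_right ?_ (sq_nonneg _))⟩
      exact pow_le_pow_left₀ (by linarith) hLn C
  obtain ⟨z, hz, hzn⟩ := key
  obtain ⟨q, hq, hqM⟩ := hpar E f G P p₀ z hd hPne hP
  refine ⟨z, hz, q, hq, ?_⟩
  refine MA1.final C (11 ^ d * K₁) D n p (cnt f (lz G z) 4) _ hD1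
    (one_le_mul_of_one_le_of_one_le h11d hK1) hp3 hpn hnD (Nat.cast_nonneg _) ?_ hzn
  have h1 : (cnt f G 5 : ℝ) ≤ 11 ^ d * (K₁ * p) :=
    hcov5.trans (mul_le_mul_of_nonneg_left hc1 (by linarith))
  have h2 : p * (cnt f (lz G z) 4 : ℝ) ≤
      p * (11 ^ d * K₁ * ((P.filter (fun q' => q' - q ∈ lin z)).card : ℝ)) := by
    calc p * (cnt f (lz G z) 4 : ℝ)
        ≤ cnt f G 5 * ((P.filter (fun q' => q' - q ∈ lin z)).card : ℝ) := hqM
      _ ≤ 11 ^ d * (K₁ * p) * ((P.filter (fun q' => q' - q ∈ lin z)).card : ℝ) :=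
          mul_le_mul_of_nonneg_right h1 (Nat.cast_nonneg _)
      _ = _ := by ring
  exact le_of_mul_le_mul_left h2 (by linarith)

end Pool.Agent.PLG.H66
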